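import Pool.Agent.helper34.AC.Spec3

set_option autoImplicit false

open Filter Topology

namespace Pool.Agent.helper34.AC

/-- The sum over the block of a fixed element. -/
theorem XLI_sum (hE1M : E1M_stmt) (m : ℕ) (hm : 2 ≤ m) (C : ℝ)
    (hT : ∀ t : ℕ, t ≤ m →
      |gb m - gb (m - t) - (t : ℝ) * xx m - (t.choose 2 : ℝ) * yy m| ≤
        C * (t.choose 3 : ℝ) / gb m ^ 2) :
    |(1 - xx (m + 1)) - xx m * om m - yy m * (om m * om (m - 1) / 2)| ≤
      C * (om m * om (m - 1) * om (m - 2) / 6) / gb m ^ 2 := by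
  obtain ⟨e0, e1, e2, e3, e4, e5⟩ := hE1M
  have h1 : (1 - xx (m + 1)) - xx m * om m - yy m * (om m * om (m - 1) / 2) =
      ∑ t ∈ Finset.range (m + 1), pT m t *
        (gb m - gb (m - t) - (t : ℝ) * xx m - (t.choose 2 : ℝ) * yy m) := by
    have h2 : ∑ t ∈ Finset.range (m + 1), pT m t *
        (gb m - gb (m - t) - (t : ℝ) * xx m - (t.choose 2 : ℝ) * yy m) =
        gb m * ∑ t ∈ Finset.range (m + 1), pT m t - ∑ t ∈ Finset.range (m + 1), pT m t * gb (m - t)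
          - xx m * ∑ t ∈ Finset.range (m + 1), pT m t * (t : ℝ)
          - yy m * ∑ t ∈ Finset.range (m + 1), pT m t * (t.choose 2 : ℝ) := by
      rw [Finset.mul_sum, Finset.mul_sum, Finset.mul_sum, ← Finset.sum_sub_distrib,
        ← Finset.sum_sub_distrib, ← Finset.sum_sub_distrib]
      refine Finset.sum_congr rfl fun t _ => ?_
      ring
    rw [h2, e1, e2, e3 m hm, e5]
    have h3 : xx (m + 1) = gb (m + 1) - gb m := rfl
    rw [h3]
    ring
  rw [h1]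
  calc |∑ t ∈ Finset.range (m + 1), pT m t *
        (gb m - gb (m - t) - (t : ℝ) * xx m - (t.choose 2 : ℝ) * yy m)|
      ≤ ∑ t ∈ Finset.range (m + 1), |pT m t *
        (gb m - gb (m - t) - (t : ℝ) * xx m - (t.choose 2 : ℝ) * yy m)| :=
        Finset.abs_sum_le_sum_abs _ _
    _ ≤ ∑ t ∈ Finset.range (m + 1), C / gb m ^ 2 * (pT m t * (t.choose 3 : ℝ)) := by
        refine Finset.sum_le_sum fun t ht => ?_
        rw [abs_mul, abs_of_nonneg (e0 m t)]
        have h2 := mul_le_mul_of_nonneg_left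
          (hT t (Nat.lt_succ_iff.1 (Finset.mem_range.1 ht))) (e0 m t)
        refine h2.trans (le_of_eq ?_)
        ring
    _ = C / gb m ^ 2 * (om m * om (m - 1) * om (m - 2) / 6) := by
        rw [← Finset.mul_sum, e4 m hm]
    _ = _ := by ring

theorem XLI (hD23 : D23_stmt) (hE1M : E1M_stmt) (hOMF : OMF_stmt) (hTAY : TAY_stmt) : XLI_stmt := by
  obtain ⟨C, hC, M, hT⟩ := hTAY
  obtain ⟨d1, d2, d3, d4⟩ := hD23
  obtain ⟨o1, o2, _, o4, _, _⟩ := hOMF
  obtain ⟨M', hM'⟩ := Filter.eventually_atTop.1 (o4.eventually_ge_atTop 6)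
  refine ⟨C + 300, by positivity, max M (max M' 3), ?_⟩
  intro m hm
  have hmM : M ≤ m := le_trans (le_max_left _ _) hm
  have hmM' : M' ≤ m := le_trans (le_trans (le_max_left _ _) (le_max_right _ _)) hm
  have hm3 : 3 ≤ m := le_trans (le_trans (le_max_right _ _) (le_max_right _ _)) hm
  have hg6 : 6 ≤ gb m := hM' m hmM'
  have hsum := XLI_sum hE1M m (by omega) C (hT m hmM)
  obtain ⟨n, rfl⟩ : ∃ n, m = n + 3 := ⟨m - 3, by omega⟩
  have s1 : n + 3 - 1 = n + 2 := by omega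
  have s2 : n + 3 - 2 = n + 1 := by omega
  rw [s1, s2] at hsum
  -- positivity of om
  have p0 := (o1 (n + 3)).1
  have p1 := (o1 (n + 2)).1
  have p2 := (o1 (n + 1)).1
  have q1 : om (n + 2) ≤ om (n + 3) := (o1 (n + 2)).2.1
  have q2 : om (n + 1) ≤ om (n + 2) := (o1 (n + 1)).2.1
  have q3 : om (n + 3) - om (n + 2) = (1 - om (n + 2) * xx (n + 3)) / gb (n + 3) :=
    (o1 (n + 2)).2.2
  -- definitions
  have x1 : xx (n + 1) = gb (n + 1) - gb n := rfl
  have x2 : xx (n + 2) = gb (n + 2) - gb (n + 1) := rfl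
  have x3 : xx (n + 3) = gb (n + 3) - gb (n + 2) := rfl
  have x4 : xx (n + 4) = gb (n + 4) - gb (n + 3) := rfl
  have y3 : yy (n + 3) = 2 * gb (n + 2) - gb (n + 3) - gb (n + 1) := rfl
  have w4 : ww (n + 4) = gb (n + 4) - 3 * gb (n + 3) + 3 * gb (n + 2) - gb (n + 1) := rfl
  have b1 := d1 n
  have b2 := d1 (n + 1)
  have b3 := d1 (n + 2)
  have c1 : |yy (n + 3)| * gb (n + 1) ≤ 3 := d2 (n + 1)
  have c2 : |ww (n + 3)| * gb n ^ 2 ≤ 61 := d3 n
  have c3 : |ww (n + 4)| * gb (n + 1) ^ 2 ≤ 61 := d3 (n + 1)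
  have g1 : gb (n + 3) / 2 ≤ gb (n + 1) := by
    have : xx (n + 1 + 1) = xx (n + 2) := rfl
    have : xx (n + 2 + 1) = xx (n + 3) := rfl
    linarith [b2.2, b3.2]
  have g0 : gb (n + 3) / 2 ≤ gb n := by
    have : xx (n + 1 + 1) = xx (n + 2) := rfl
    have : xx (n + 2 + 1) = xx (n + 3) := rfl
    linarith [b1.2, b2.2, b3.2]
  set g : ℝ := gb (n + 3) with hg
  set ω : ℝ := om (n + 3) with hω
  have hgpos : 0 < g := by linarith
  have r1 : |yy (n + 3)| ≤ 6 / g := by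
    rw [le_div_iff₀ hgpos]
    have := mul_le_mul_of_nonneg_left g1 (abs_nonneg (yy (n + 3)))
    linarith
  have r2 : |ww (n + 3)| ≤ 244 / g ^ 2 := by
    rw [le_div_iff₀ (by positivity)]
    have h5 : (g / 2) ^ 2 ≤ gb n ^ 2 := pow_le_pow_left₀ (by positivity) g0 2
    have := mul_le_mul_of_nonneg_left h5 (abs_nonneg (ww (n + 3)))
    linarith
  have r3 : |ww (n + 4)| ≤ 244 / g ^ 2 := by
    rw [le_div_iff₀ (by positivity)]
    have h5 : (g / 2) ^ 2 ≤ gb (n + 1) ^ 2 := pow_le_pow_left₀ (by positivity) g1 2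
    have := mul_le_mul_of_nonneg_left h5 (abs_nonneg (ww (n + 4)))
    linarith
  have hd0 : 0 ≤ ω - om (n + 2) := by linarith
  have hd1 : ω - om (n + 2) ≤ 1 / g := by
    rw [q3]
    apply div_le_div_of_nonneg_right _ hgpos.le
    have : 0 ≤ om (n + 2) * xx (n + 3) := mul_nonneg p1 b3.1.le
    linarith
  have hω3 : om (n + 3) * om (n + 2) * om (n + 1) ≤ (1 + ω) ^ 3 := by
    have h5 : ω * om (n + 2) ≤ (1 + ω) * (1 + ω) := mul_le_mul (by linarith) (by linarith) p1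
      (by linarith)
    have h6 : ω * om (n + 2) * om (n + 1) ≤ (1 + ω) * (1 + ω) * (1 + ω) :=
      mul_le_mul h5 (by linarith) p2 (by positivity)
    calc om (n + 3) * om (n + 2) * om (n + 1) ≤ (1 + ω) * (1 + ω) * (1 + ω) := h6
      _ = _ := by ring
  have h1ω : 1 ≤ (1 + ω) ^ 3 := one_le_pow₀ (by linarith)
  have hωle : ω ≤ (1 + ω) ^ 3 := by
    have h5 : 1 + ω ≤ (1 + ω) ^ 3 := le_self_pow₀ (by linarith) (by norm_num)
    linarith
  have hω2 : ω + ω ^ 2 / 2 ≤ (1 + ω) ^ 3 := by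
    have h5 : 0 ≤ ω ^ 3 := pow_nonneg p0 3
    have h6 := sq_nonneg ω
    have h7 : (1 + ω) ^ 3 = 1 + 3 * ω + 3 * ω ^ 2 + ω ^ 3 := by ring
    rw [h7]
    linarith
  -- the three error terms
  have E1 : C * (om (n + 3) * om (n + 2) * om (n + 1) / 6) / g ^ 2 ≤ C * ((1 + ω) ^ 3 / g ^ 2) := by
    have h5 : om (n + 3) * om (n + 2) * om (n + 1) / 6 ≤ (1 + ω) ^ 3 := by
      have h6 : 0 ≤ om (n + 3) * om (n + 2) * om (n + 1) := by positivity
      linarith
    calc C * (om (n + 3) * om (n + 2) * om (n + 1) / 6) / g ^ 2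
        ≤ C * (1 + ω) ^ 3 / g ^ 2 :=
          div_le_div_of_nonneg_right (mul_le_mul_of_nonneg_left h5 hC.le) (by positivity)
      _ = _ := by ring
  have E2 : |ww (n + 4) * ω| ≤ 244 * ((1 + ω) ^ 3 / g ^ 2) := by
    rw [abs_mul, abs_of_nonneg p0]
    calc |ww (n + 4)| * ω ≤ 244 / g ^ 2 * (1 + ω) ^ 3 :=
          mul_le_mul r3 hωle p0 (by positivity)
      _ = _ := by ring
  have E3 : |yy (n + 3) * (ω * (ω - om (n + 2)) / 2)| ≤ 3 * ((1 + ω) ^ 3 / g ^ 2) := by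
    have h5 : 0 ≤ ω * (ω - om (n + 2)) / 2 := by positivity
    rw [abs_mul, abs_of_nonneg h5]
    have h6 : ω * (ω - om (n + 2)) / 2 ≤ (1 + ω) ^ 3 * (1 / g) / 2 := by
      apply div_le_div_of_nonneg_right _ (by norm_num)
      exact mul_le_mul hωle hd1 hd0 (by positivity)
    calc |yy (n + 3)| * (ω * (ω - om (n + 2)) / 2) ≤ 6 / g * ((1 + ω) ^ 3 * (1 / g) / 2) :=
          mul_le_mul r1 h6 h5 (by positivity)
      _ = _ := by ring
  have hkey : 1 - xx (n + 4) * (1 + ω) - yy (n + 3) * (ω + ω ^ 2 / 2) =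
      ((1 - xx (n + 4)) - xx (n + 3) * ω - yy (n + 3) * (ω * om (n + 2) / 2))
        - ww (n + 4) * ω - yy (n + 3) * (ω * (ω - om (n + 2)) / 2) := by
    have h5 : xx (n + 3) = xx (n + 4) + yy (n + 3) - ww (n + 4) := by
      rw [x3, x4, y3, w4]
      ring
    rw [h5]
    ring
  have hA : |1 - xx (n + 4) * (1 + ω) - yy (n + 3) * (ω + ω ^ 2 / 2)| ≤
      (C + 247) * ((1 + ω) ^ 3 / g ^ 2) := by
    rw [hkey]
    refine (abs_sub _ _).trans ?_
    have h5 := abs_sub ((1 - xx (n + 4)) - xx (n + 3) * ω - yy (n + 3) * (ω * om (n + 2) / 2))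
      (ww (n + 4) * ω)
    have h6 : |(1 - xx (n + 4)) - xx (n + 3) * ω - yy (n + 3) * (ω * om (n + 2) / 2)| ≤
      C * ((1 + ω) ^ 3 / g ^ 2) := hsum.trans E1
    linarith
  have hU : 0 ≤ (1 + ω) ^ 3 / g ^ 2 := by positivity
  have hV : (1 + ω) ^ 3 / g ^ 2 ≤ (1 + ω) ^ 3 / g := by
    apply div_le_div_of_nonneg_left (by positivity) hgpos
    exact le_self_pow₀ (by linarith) (by norm_num)
  refine ⟨?_, ?_, ?_, ?_⟩
  · refine hA.trans ?_
    calc (C + 247) * ((1 + ω) ^ 3 / g ^ 2) ≤ (C + 300) * ((1 + ω) ^ 3 / g ^ 2) :=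
          mul_le_mul_of_nonneg_right (by linarith) hU
      _ = _ := by ring
  · exact r1.trans (div_le_div_of_nonneg_right (by linarith) hgpos.le)
  · exact r2.trans (div_le_div_of_nonneg_right (by linarith) (by positivity))
  · have h5 : |yy (n + 3) * (ω + ω ^ 2 / 2)| ≤ 6 * ((1 + ω) ^ 3 / g) := by
      rw [abs_mul, abs_of_nonneg (by positivity : 0 ≤ ω + ω ^ 2 / 2)]
      calc |yy (n + 3)| * (ω + ω ^ 2 / 2) ≤ 6 / g * (1 + ω) ^ 3 :=
            mul_le_mul r1 hω2 (by positivity) (by positivity)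
        _ = _ := by ring
    have h6 : xx (n + 4) * (1 + ω) - 1 =
        -(1 - xx (n + 4) * (1 + ω) - yy (n + 3) * (ω + ω ^ 2 / 2)) -
          yy (n + 3) * (ω + ω ^ 2 / 2) := by ring
    have h7 : |xx (n + 4) * (1 + ω) - 1| ≤ (C + 247) * ((1 + ω) ^ 3 / g ^ 2) +
        6 * ((1 + ω) ^ 3 / g) := by
      rw [h6]
      refine (abs_sub _ _).trans ?_
      rw [abs_neg]
      exact add_le_add hA h5
    refine h7.trans ?_
    have h8 : (C + 247) * ((1 + ω) ^ 3 / g ^ 2) ≤ (C + 247) * ((1 + ω) ^ 3 / g) :=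
      mul_le_mul_of_nonneg_left hV (by positivity)
    have h9 : 0 ≤ (1 + ω) ^ 3 / g := by positivity
    calc (C + 247) * ((1 + ω) ^ 3 / g ^ 2) + 6 * ((1 + ω) ^ 3 / g)
        ≤ (C + 300) * ((1 + ω) ^ 3 / g) := by linarith
      _ = _ := by ring

end Pool.Agent.helper34.AC
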